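import Mathlib

/-!
# The solutions of `a n = σ n` have density zero (problem MP_846857_nt)

Let `a n = n τ(n) - ∑ d τ(d)`, the sum over the divisors `d < n` of `n`. The conjecture is that
`a n = σ n` only for the powers of `2`. We show (`result`) that at most `20 N / log N` of the `n ≤ N`
satisfy `a n = σ n`, so the conjecture holds for almost all `n`.

Proof. With `g n = ∑ d τ(d)`, the sum over all divisors of `n`, the equation is
`g n + σ n = 2 n τ(n)`, and `g` is multiplicative. For `n = m p ^ k`, `p` a prime not dividing `m`, the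
quotient of the left side by `p ^ k` is strictly decreasing in `p`, while that of the right side does
not depend on `p`: so for given `m` and `k ≥ 1` there is at most one such prime (`unique`). Hence the
solutions `n ≤ N` with a prime factor `≥ y` are at most `∑ k, N / y ^ k`; the other `n ≤ N` are at most
`2 ^ y √N`.
-/

set_option autoImplicit false

namespace Pool.Agent.Results.MP_846857_nt.FewCoincidences

open Finset

/-- The number of positive divisors of `n`. -/
def tau (n : ℕ) : ℕ := n.divisors.card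

/-- The sum of the positive divisors of `n`. -/
def sigma (n : ℕ) : ℕ := ∑ d ∈ n.divisors, d

/-- `a n = n τ(n) - ∑ d τ(d)`, the sum over the divisors `d` of `n` with `d < n`. -/
def a (n : ℕ) : ℤ := (n : ℤ) * tau n - ∑ d ∈ n.properDivisors, (d : ℤ) * tau d

/-- the full divisor sum -/
def g (n : ℕ) : ℕ := ∑ d ∈ n.divisors, d * tau d

theorem a_eq_iff {n : ℕ} (hn : n ≠ 0) : a n = sigma n ↔ g n + sigma n = 2 * n * tau n := by
  have h : (g n : ℤ) = ∑ d ∈ n.properDivisors, (d : ℤ) * tau d + (n : ℤ) * tau n := by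
    rw [g, ← Nat.insert_self_properDivisors hn, Finset.sum_insert Nat.self_notMem_properDivisors]
    push_cast
    ring
  rw [a]
  constructor
  · intro h'
    have : ((g n + sigma n : ℕ) : ℤ) = ((2 * n * tau n : ℕ) : ℤ) := by
      push_cast; rw [h]; linarith
    exact_mod_cast this
  · intro h'
    have h2 : ((g n + sigma n : ℕ) : ℤ) = ((2 * n * tau n : ℕ) : ℤ) := by rw [h']
    push_cast at h2
    rw [h] at h2
    linarith

open ArithmeticFunction ArithmeticFunction.sigma ArithmeticFunction.zeta in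
theorem g_mul {m n : ℕ} (h : m.Coprime n) : g (m * n) = g m * g n := by
  have e : ∀ x, g x = (ArithmeticFunction.pmul ArithmeticFunction.id (σ 0) * ζ) x := by
    intro x
    rw [mul_zeta_apply, g]
    refine Finset.sum_congr rfl (fun d _ => ?_)
    rw [pmul_apply, id_apply, sigma_zero_apply, tau]
  rw [e, e, e]
  exact ((isMultiplicative_id.pmul isMultiplicative_sigma).mul isMultiplicative_zeta).map_mul_of_coprime h

open ArithmeticFunction ArithmeticFunction.sigma ArithmeticFunction.zeta in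
theorem sigma_mul {m n : ℕ} (h : m.Coprime n) : sigma (m * n) = sigma m * sigma n := by
  have e : ∀ x, sigma x = σ 1 x := fun x => by rw [sigma_one_apply, sigma]
  rw [e, e, e]
  exact isMultiplicative_sigma.map_mul_of_coprime h

open ArithmeticFunction ArithmeticFunction.sigma ArithmeticFunction.zeta in
theorem tau_mul {m n : ℕ} (h : m.Coprime n) : tau (m * n) = tau m * tau n := by
  have e : ∀ x, tau x = σ 0 x := fun x => by rw [sigma_zero_apply, tau]
  rw [e, e, e]
  exact isMultiplicative_sigma.map_mul_of_coprime h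

theorem tau_pow {p : ℕ} (hp : p.Prime) (k : ℕ) : tau (p ^ k) = k + 1 := by
  rw [tau, Nat.divisors_prime_pow hp]; simp

theorem g_pow {p : ℕ} (hp : p.Prime) (k : ℕ) :
    g (p ^ k) = ∑ j ∈ range (k + 1), (j + 1) * p ^ j := by
  rw [g, Nat.sum_divisors_prime_pow hp]
  refine Finset.sum_congr rfl (fun j _ => ?_)
  rw [tau_pow hp, mul_comm]

theorem sigma_pow {p : ℕ} (hp : p.Prime) (k : ℕ) :
    sigma (p ^ k) = ∑ j ∈ range (k + 1), p ^ j := by
  rw [sigma, Nat.sum_divisors_prime_pow hp]

theorem key (c : ℕ → ℕ) (K k : ℕ) (hk : k ≠ 0) (hc : 0 < c 0) {p q : ℕ} (hpq : p < q)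
    (h1 : ∑ j ∈ range (k + 1), c j * p ^ j = K * p ^ k)
    (h2 : ∑ j ∈ range (k + 1), c j * q ^ j = K * q ^ k) : False := by
  have e : q ^ k * ∑ j ∈ range (k + 1), c j * p ^ j = p ^ k * ∑ j ∈ range (k + 1), c j * q ^ j := by
    rw [h1, h2]; ring
  rw [Finset.mul_sum, Finset.mul_sum] at e
  have hlt : ∑ j ∈ range (k + 1), p ^ k * (c j * q ^ j) < ∑ j ∈ range (k + 1), q ^ k * (c j * p ^ j) := by
    apply Finset.sum_lt_sum
    · intro j hj
      have hj' : j ≤ k := Nat.lt_succ_iff.mp (Finset.mem_range.mp hj)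
      obtain ⟨i, rfl⟩ := Nat.exists_eq_add_of_le hj'
      have h3 : p ^ i ≤ q ^ i := Nat.pow_le_pow_left hpq.le i
      calc p ^ (j + i) * (c j * q ^ j) = (c j * q ^ j * p ^ j) * p ^ i := by ring
        _ ≤ (c j * q ^ j * p ^ j) * q ^ i := Nat.mul_le_mul_left _ h3
        _ = q ^ (j + i) * (c j * p ^ j) := by ring
    · refine ⟨0, by simp, ?_⟩
      have h3 : p ^ k < q ^ k := Nat.pow_lt_pow_left hpq hk
      simp only [pow_zero, mul_one]
      exact Nat.mul_lt_mul_of_pos_right h3 hc
  omega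

theorem eq_form {m p k : ℕ} (hm : m ≠ 0) (hp : p.Prime) (hpm : ¬ p ∣ m)
    (h : a (m * p ^ k) = sigma (m * p ^ k)) :
    ∑ j ∈ range (k + 1), (g m * (j + 1) + sigma m) * p ^ j =
      (2 * m * tau m * (k + 1)) * p ^ k := by
  have hco : m.Coprime (p ^ k) := (Nat.Coprime.pow_right k ((Nat.Prime.coprime_iff_not_dvd hp).mpr hpm).symm)
  rw [a_eq_iff (mul_ne_zero hm (pow_ne_zero _ hp.ne_zero)), g_mul hco, sigma_mul hco, tau_mul hco,
    g_pow hp, sigma_pow hp, tau_pow hp, Finset.mul_sum, Finset.mul_sum, ← Finset.sum_add_distrib] at h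
  calc ∑ j ∈ range (k + 1), (g m * (j + 1) + sigma m) * p ^ j
      = ∑ j ∈ range (k + 1), (g m * ((j + 1) * p ^ j) + sigma m * p ^ j) :=
        Finset.sum_congr rfl (fun j _ => by ring)
    _ = 2 * (m * p ^ k) * (tau m * (k + 1)) := h
    _ = (2 * m * tau m * (k + 1)) * p ^ k := by ring

theorem sigma_pos {m : ℕ} (hm : m ≠ 0) : 0 < sigma m := by
  rw [sigma]
  exact Finset.sum_pos (fun d hd => Nat.pos_of_mem_divisors hd) ⟨m, Nat.mem_divisors_self m hm⟩

theorem unique {m k p q : ℕ} (hm : m ≠ 0) (hk : k ≠ 0) (hp : p.Prime) (hq : q.Prime)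
    (hpm : ¬ p ∣ m) (hqm : ¬ q ∣ m) (h1 : a (m * p ^ k) = sigma (m * p ^ k))
    (h2 : a (m * q ^ k) = sigma (m * q ^ k)) : p = q := by
  have e1 := eq_form hm hp hpm h1
  have e2 := eq_form hm hq hqm h2
  have hc : 0 < g m * (0 + 1) + sigma m := by have := sigma_pos hm; omega
  rcases lt_trichotomy p q with h | h | h
  · exact (key (fun j => g m * (j + 1) + sigma m) _ k hk hc h e1 e2).elim
  · exact h
  · exact (key (fun j => g m * (j + 1) + sigma m) _ k hk hc h e2 e1).elim

/-- The solutions up to `N`. -/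
def sol (N : ℕ) : Finset ℕ := (Icc 1 N).filter (fun n => a n = sigma n)

theorem rough_card (N y : ℕ) (hy : 2 ≤ y) :
    ((sol N \ Nat.smoothNumbersUpTo N y).card : ℝ) ≤ 2 * N / y := by
  classical
  have hex : ∀ n ∈ sol N \ Nat.smoothNumbersUpTo N y, ∃ p, p.Prime ∧ y ≤ p ∧ p ∣ n := by
    intro n hn
    rw [Finset.mem_sdiff, sol, Finset.mem_filter, Finset.mem_Icc] at hn
    obtain ⟨⟨⟨hn1, hnN⟩, -⟩, hs⟩ := hn
    by_contra hcon
    push Not at hcon
    apply hs
    rw [Nat.mem_smoothNumbersUpTo, Nat.mem_smoothNumbers]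
    refine ⟨hnN, by omega, fun p hp => ?_⟩
    by_contra h
    exact hcon p (Nat.prime_of_mem_primeFactorsList hp) (not_lt.mp h)
      (Nat.dvd_of_mem_primeFactorsList hp)
  choose! P hPp hPy hPd using hex
  have hcard : (sol N \ Nat.smoothNumbersUpTo N y).card ≤
      ((range N).sigma (fun j => Icc 1 (N / y ^ (j + 1)))).card := by
    apply Finset.card_le_card_of_injOn
      (fun n => (⟨n.factorization (P n) - 1, n / P n ^ n.factorization (P n)⟩ : Σ _ : ℕ, ℕ))
    · intro n hn
      have hn' := hn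
      rw [Finset.mem_coe, Finset.mem_sdiff, sol, Finset.mem_filter, Finset.mem_Icc] at hn'
      obtain ⟨⟨⟨hn1, hnN⟩, -⟩, -⟩ := hn'
      have hn0 : n ≠ 0 := by omega
      have hp := hPp n hn
      have hk : 0 < n.factorization (P n) := hp.factorization_pos_of_dvd hn0 (hPd n hn)
      have hpow : P n ^ n.factorization (P n) ≤ n := Nat.ordProj_le (P n) hn0
      have hlt : n.factorization (P n) < P n ^ n.factorization (P n) :=
        Nat.lt_pow_self hp.one_lt
      rw [Finset.mem_coe, Finset.mem_sigma, Finset.mem_range, Finset.mem_Icc]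
      refine ⟨by simp only; omega, Nat.ordCompl_pos (P n) hn0, ?_⟩
      simp only
      rw [Nat.sub_add_cancel hk, Nat.le_div_iff_mul_le (by positivity)]
      calc n / P n ^ n.factorization (P n) * y ^ n.factorization (P n)
          ≤ n / P n ^ n.factorization (P n) * P n ^ n.factorization (P n) :=
            Nat.mul_le_mul_left _ (Nat.pow_le_pow_left (hPy n hn) _)
        _ ≤ n := Nat.div_mul_le_self _ _
        _ ≤ N := hnN
    · intro n₁ h₁ n₂ h₂ he
      simp only [Sigma.mk.injEq, heq_eq_eq] at he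
      obtain ⟨he1, he2⟩ := he
      have hn₁ := h₁
      have hn₂ := h₂
      rw [Finset.mem_coe, Finset.mem_sdiff, sol, Finset.mem_filter, Finset.mem_Icc] at hn₁ hn₂
      obtain ⟨⟨⟨hn11, -⟩, ha1⟩, -⟩ := hn₁
      obtain ⟨⟨⟨hn21, -⟩, ha2⟩, -⟩ := hn₂
      have hn10 : n₁ ≠ 0 := by omega
      have hn20 : n₂ ≠ 0 := by omega
      have hp1 := hPp n₁ h₁
      have hp2 := hPp n₂ h₂
      have hk1 : 0 < n₁.factorization (P n₁) := hp1.factorization_pos_of_dvd hn10 (hPd n₁ h₁)
      have hk2 : 0 < n₂.factorization (P n₂) := hp2.factorization_pos_of_dvd hn20 (hPd n₂ h₂)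
      have hk : n₁.factorization (P n₁) = n₂.factorization (P n₂) := by omega
      have hf1 : n₁ / P n₁ ^ n₁.factorization (P n₁) * P n₁ ^ n₁.factorization (P n₁) = n₁ :=
        Nat.div_mul_cancel (Nat.ordProj_dvd n₁ (P n₁))
      have hf2 : n₂ / P n₂ ^ n₂.factorization (P n₂) * P n₂ ^ n₂.factorization (P n₂) = n₂ :=
        Nat.div_mul_cancel (Nat.ordProj_dvd n₂ (P n₂))
      have hm1 : n₁ / P n₁ ^ n₁.factorization (P n₁) ≠ 0 := (Nat.ordCompl_pos (P n₁) hn10).ne'
      have hd1 : ¬ P n₁ ∣ n₁ / P n₁ ^ n₁.factorization (P n₁) := Nat.not_dvd_ordCompl hp1 hn10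
      have hd2 : ¬ P n₂ ∣ n₂ / P n₂ ^ n₂.factorization (P n₂) := Nat.not_dvd_ordCompl hp2 hn20
      have hu : P n₁ = P n₂ := by
        apply unique hm1 hk1.ne' hp1 hp2 hd1 (by rw [he2]; exact hd2)
        · rw [hf1]; exact ha1
        · rw [he2, hk, hf2]; exact ha2
      rw [← hf1, ← hf2, he2, hk, hu]
  have hcard2 : (((range N).sigma (fun j => Icc 1 (N / y ^ (j + 1)))).card : ℝ) ≤ 2 * N / y := by
    rw [Finset.card_sigma]
    push_cast
    have hy0 : (0 : ℝ) < y := by positivity
    have hy2 : (2 : ℝ) ≤ y := by exact_mod_cast hy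
    calc ∑ j ∈ range N, ((Icc 1 (N / y ^ (j + 1))).card : ℝ)
        ≤ ∑ j ∈ range N, (N / y : ℝ) * (1 / 2) ^ j := by
          apply Finset.sum_le_sum
          intro j _
          rw [Nat.card_Icc, Nat.add_sub_cancel]
          calc ((N / y ^ (j + 1) : ℕ) : ℝ) ≤ (N : ℝ) / ((y ^ (j + 1) : ℕ) : ℝ) := Nat.cast_div_le
            _ = (N / y : ℝ) * (1 / y) ^ j := by
                by_cases hyz : (y : ℝ) = 0
                · linarith
                push_cast; rw [pow_succ, one_div, inv_pow]; field_simp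
            _ ≤ (N / y : ℝ) * (1 / 2) ^ j := by
                apply mul_le_mul_of_nonneg_left _ (by positivity)
                apply pow_le_pow_left₀ (by positivity)
                exact one_div_le_one_div_of_le (by norm_num) hy2
      _ = (N / y : ℝ) * ∑ j ∈ range N, (1 / 2 : ℝ) ^ j := by rw [Finset.mul_sum]
      _ ≤ (N / y : ℝ) * 2 := mul_le_mul_of_nonneg_left (sum_geometric_two_le N) (by positivity)
      _ = 2 * N / y := by ring
  calc ((sol N \ Nat.smoothNumbersUpTo N y).card : ℝ)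
      ≤ (((range N).sigma (fun j => Icc 1 (N / y ^ (j + 1)))).card : ℝ) := by exact_mod_cast hcard
    _ ≤ 2 * N / y := hcard2

theorem sol_card (N y : ℕ) (hy : 2 ≤ y) :
    ((sol N).card : ℝ) ≤ 2 ^ y * (Nat.sqrt N : ℝ) + 2 * N / y := by
  classical
  have h1 := rough_card N y hy
  have h2 : (Nat.smoothNumbersUpTo N y).card ≤ 2 ^ y * Nat.sqrt N := by
    refine (Nat.smoothNumbersUpTo_card_le N y).trans (Nat.mul_le_mul_right _ ?_)
    apply Nat.pow_le_pow_right (by norm_num)
    rw [Nat.primesBelow]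
    exact (Finset.card_filter_le _ _).trans (by simp)
  have h3 : (sol N).card ≤ (sol N \ Nat.smoothNumbersUpTo N y).card +
      (Nat.smoothNumbersUpTo N y).card := by
    have := Finset.card_le_card_sdiff_add_card (s := sol N) (t := Nat.smoothNumbersUpTo N y)
    exact this
  have h4 : ((Nat.smoothNumbersUpTo N y).card : ℝ) ≤ 2 ^ y * (Nat.sqrt N : ℝ) := by
    exact_mod_cast h2
  have h5 : ((sol N).card : ℝ) ≤ ((sol N \ Nat.smoothNumbersUpTo N y).card : ℝ) +
      ((Nat.smoothNumbersUpTo N y).card : ℝ) := by exact_mod_cast h3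
  linarith

theorem count (N : ℕ) (hN : 2 ≤ N) : ((sol N).card : ℝ) ≤ 20 * N / Real.log N := by
  have hN0 : (0 : ℝ) < N := by positivity
  have hN1 : (1 : ℝ) < N := by exact_mod_cast (by omega : 1 < N)
  have hlog : 0 < Real.log N := Real.log_pos hN1
  rw [le_div_iff₀ hlog]
  rcases Nat.lt_or_ge N 256 with hs | hs
  · have h1 : ((sol N).card : ℝ) ≤ N := by
      have : (sol N).card ≤ N := by
        rw [sol]; exact (Finset.card_filter_le _ _).trans (by simp)
      exact_mod_cast this
    have h2 : Real.log N ≤ 20 := by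
      have h3 : Real.log N ≤ Real.log ((2 : ℝ) ^ 8) := by
        apply Real.log_le_log hN0
        have : (N : ℝ) < 256 := by exact_mod_cast hs
        norm_num; linarith
      rw [Real.log_pow] at h3
      have := Real.log_two_lt_d9
      push_cast at h3
      linarith
    have := mul_le_mul h1 h2 hlog.le hN0.le
    linarith
  · obtain ⟨L, hL⟩ : ∃ L, L = Nat.log 2 N := ⟨_, rfl⟩
    have hL8 : 8 ≤ L := by
      rw [hL]; exact Nat.le_log_of_pow_le (by norm_num) (by norm_num; exact hs)
    have hLlow : 2 ^ L ≤ N := by rw [hL]; exact Nat.pow_log_le_self 2 (by omega)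
    have hLup : N < 2 ^ (L + 1) := by rw [hL]; exact Nat.lt_pow_succ_log_self (by norm_num) N
    obtain ⟨y, hy⟩ : ∃ y, y = L / 4 := ⟨_, rfl⟩
    have hy2 : 2 ≤ y := by omega
    have hL4 : L + 1 ≤ 6 * y := by omega
    have h := sol_card N y hy2
    obtain ⟨t, ht⟩ : ∃ t : ℝ, t = (N : ℝ) ^ (1 / 4 : ℝ) := ⟨_, rfl⟩
    have ht0 : 0 ≤ t := by rw [ht]; positivity
    have ht4 : t ^ 4 = N := by
      rw [ht, ← Real.rpow_natCast, ← Real.rpow_mul hN0.le]; norm_num
    have hlt : Real.log N ≤ 4 * t := by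
      have := Real.log_le_rpow_div hN0.le (by norm_num : (0 : ℝ) < 1 / 4)
      rw [ht]; linarith
    have hu : (2 : ℝ) ^ y ≤ t := by
      apply le_of_pow_le_pow_left₀ (n := 4) (by norm_num) ht0
      rw [ht4, ← pow_mul]
      have : 2 ^ (y * 4) ≤ N := (Nat.pow_le_pow_right (by norm_num) (by omega)).trans hLlow
      exact_mod_cast this
    have hsq : (Nat.sqrt N : ℝ) ≤ t ^ 2 := by
      apply le_of_pow_le_pow_left₀ (n := 2) (by norm_num) (by positivity)
      rw [← pow_mul, ht4]
      exact_mod_cast Nat.sqrt_le' N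
    have hA : 2 ^ y * (Nat.sqrt N : ℝ) * Real.log N ≤ 4 * N := by
      calc 2 ^ y * (Nat.sqrt N : ℝ) * Real.log N ≤ t * t ^ 2 * (4 * t) := by
            apply mul_le_mul (mul_le_mul hu hsq (by positivity) ht0) hlt hlog.le (by positivity)
        _ = 4 * t ^ 4 := by ring
        _ = 4 * N := by rw [ht4]
    have hylog : Real.log N ≤ 6 * y := by
      have h3 : Real.log N ≤ Real.log ((2 : ℝ) ^ (L + 1)) := by
        apply Real.log_le_log hN0
        exact_mod_cast hLup.le
      rw [Real.log_pow] at h3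
      have h4 : Real.log 2 ≤ 1 := by have := Real.log_two_lt_d9; linarith
      have h5 : ((L + 1 : ℕ) : ℝ) ≤ 6 * y := by exact_mod_cast hL4
      have h6 : ((L + 1 : ℕ) : ℝ) * Real.log 2 ≤ ((L + 1 : ℕ) : ℝ) * 1 :=
        mul_le_mul_of_nonneg_left h4 (by positivity)
      linarith
    have hy0 : (0 : ℝ) < y := by positivity
    have hB : 2 * N / y * Real.log N ≤ 12 * N := by
      calc 2 * (N : ℝ) / y * Real.log N ≤ 2 * N / y * (6 * y) :=
            mul_le_mul_of_nonneg_left hylog (by positivity)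
        _ = 12 * N := by field_simp; ring
    calc ((sol N).card : ℝ) * Real.log N
        ≤ (2 ^ y * (Nat.sqrt N : ℝ) + 2 * N / y) * Real.log N :=
          mul_le_mul_of_nonneg_right h hlog.le
      _ = 2 ^ y * (Nat.sqrt N : ℝ) * Real.log N + 2 * N / y * Real.log N := by ring
      _ ≤ 20 * N := by linarith

/-- Main theorem: at most `20 N / log N` of the `n ≤ N` satisfy `a n = σ n`. -/
theorem result (N : ℕ) (hN : 2 ≤ N) :
    (((Icc 1 N).filter (fun n => a n = sigma n)).card : ℝ) ≤ 20 * N / Real.log N :=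
  count N hN

end Pool.Agent.Results.MP_846857_nt.FewCoincidences
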