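import Pool.Agent.Results.MP_846857_nt.TwoPrimes

/-!
# `a(n) = σ(n)` only at the powers of two: a parity condition on the exponents
-/

namespace Pool.Agent.Results.MP_846857_nt.Parity

open Finset Pool.Agent.Results.MP_846857_nt.TwoPrimes

/-- `A(n) = n τ(n) - ∑ d τ(d)`, the sum over the divisors `d < n` of `n` (the `a(n)` of the page). -/
def A (n : ℕ) : ℤ :=
  (n : ℤ) * (n.divisors.card : ℤ) - ∑ d ∈ n.properDivisors, (d : ℤ) * (d.divisors.card : ℤ)

lemma pow_par {p : ℕ} (hp : p.Prime) (ho : Odd p) (k : ℕ) :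
    (S (p ^ k) % 2 = 1 ↔ k % 2 = 0) ∧ (F (p ^ k) % 2 = 1 ↔ k % 4 ≤ 1) := by
  induction k with
  | zero => simp [S_one, F_one]
  | succ k ih =>
    have h1 : p ^ (k + 1) % 2 = 1 := Nat.odd_iff.mp ho.pow
    rw [S_pow_succ hp, F_pow_succ hp]
    have h2 : ((k + 2) * p ^ (k + 1)) % 2 = k % 2 := by
      rw [Nat.mul_mod, h1]; omega
    obtain ⟨i1, i2⟩ := ih
    constructor
    · omega
    · omega

lemma par (m : ℕ) : m ≠ 0 → Odd m →
    (S m % 2 = 1 ↔ ∀ p : ℕ, m.factorization p % 2 = 0) ∧
    (F m % 2 = 1 ↔ ∀ p : ℕ, m.factorization p % 4 ≤ 1) := by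
  induction m using Nat.recOnPosPrimePosCoprime with
  | prime_pow p n hp hn =>
    intro _ ho
    have hpo : Odd p := by
      rcases hp.eq_two_or_odd' with rfl | h
      · exfalso
        exact (Nat.not_even_iff_odd.mpr ho) (even_iff_two_dvd.mpr (dvd_pow_self 2 hn.ne'))
      · exact h
    obtain ⟨h1, h2⟩ := pow_par hp hpo n
    have hf : ∀ q : ℕ, (p ^ n).factorization q = if p = q then n else 0 := by
      intro q
      rw [hp.factorization_pow, Finsupp.single_apply]
    constructor
    · rw [h1]
      constructor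
      · intro h q; rw [hf]; split_ifs <;> omega
      · intro h; have := h p; rw [hf, if_pos rfl] at this; exact this
    · rw [h2]
      constructor
      · intro h q; rw [hf]; split_ifs <;> omega
      · intro h; have := h p; rw [hf, if_pos rfl] at this; exact this
  | zero => intro h; exact absurd rfl h
  | one => intro _ _; simp [S_one, F_one]
  | coprime a b ha hb hab iha ihb =>
    intro _ ho
    have hoa : Odd a := (Nat.odd_mul.mp ho).1
    have hob : Odd b := (Nat.odd_mul.mp ho).2
    have ha0 : a ≠ 0 := by omega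
    have hb0 : b ≠ 0 := by omega
    obtain ⟨a1, a2⟩ := iha ha0 hoa
    obtain ⟨b1, b2⟩ := ihb hb0 hob
    have hz : ∀ p : ℕ, a.factorization p = 0 ∨ b.factorization p = 0 := by
      intro p
      by_contra hc
      push Not at hc
      have h1 := Nat.dvd_of_factorization_pos hc.1
      have h2 := Nat.dvd_of_factorization_pos hc.2
      have h3 : p ∣ Nat.gcd a b := Nat.dvd_gcd h1 h2
      rw [hab.gcd_eq_one] at h3
      have h4 : p = 1 := Nat.dvd_one.mp h3
      subst h4
      exact hc.1 (Nat.factorization_one_right a)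
    have hf : ∀ p : ℕ, (a * b).factorization p = a.factorization p + b.factorization p := by
      intro p; rw [Nat.factorization_mul ha0 hb0]; rfl
    constructor
    · rw [S_mul hab, Nat.mul_mod]
      have : (S a % 2 * (S b % 2)) % 2 = 1 ↔ (S a % 2 = 1 ∧ S b % 2 = 1) := by
        rcases Nat.mod_two_eq_zero_or_one (S a) with h | h <;>
          rcases Nat.mod_two_eq_zero_or_one (S b) with h' | h' <;> simp [h, h']
      rw [this, a1, b1]
      constructor
      · rintro ⟨h1, h2⟩ p
        have := h1 p; have := h2 p; rw [hf]; omega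
      · intro h
        constructor
        · intro p; have := h p; rw [hf] at this; rcases hz p with h | h <;> omega
        · intro p; have := h p; rw [hf] at this; rcases hz p with h | h <;> omega
    · rw [F_mul hab, Nat.mul_mod]
      have : (F a % 2 * (F b % 2)) % 2 = 1 ↔ (F a % 2 = 1 ∧ F b % 2 = 1) := by
        rcases Nat.mod_two_eq_zero_or_one (F a) with h | h <;>
          rcases Nat.mod_two_eq_zero_or_one (F b) with h' | h' <;> simp [h, h']
      rw [this, a2, b2]
      constructor
      · rintro ⟨h1, h2⟩ p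
        have := h1 p; have := h2 p; rw [hf]
        rcases hz p with h | h <;> rw [h] <;> omega
      · intro h
        constructor
        · intro p; have := h p; rw [hf] at this; rcases hz p with h | h <;> omega
        · intro p; have := h p; rw [hf] at this; rcases hz p with h | h <;> omega

/-- A solution `2^k m`, `m` odd, of `a(n) = σ(n)`: all exponents of `m` are even if and only if all
are `0` or `1` modulo `4`. Hence Q1 holds for all `2^k m` with `m` odd and squarefree. -/
theorem result :
    (∀ k m : ℕ, Odd m → A (2 ^ k * m) = ∑ d ∈ (2 ^ k * m).divisors, (d : ℤ) →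
      ((∀ p : ℕ, m.factorization p % 2 = 0) ↔ ∀ p : ℕ, m.factorization p % 4 ≤ 1)) ∧
    (∀ k m : ℕ, Odd m → Squarefree m →
      (A (2 ^ k * m) = ∑ d ∈ (2 ^ k * m).divisors, (d : ℤ) ↔ m = 1)) := by
  have first : ∀ k m : ℕ, Odd m → A (2 ^ k * m) = ∑ d ∈ (2 ^ k * m).divisors, (d : ℤ) →
      ((∀ p : ℕ, m.factorization p % 2 = 0) ↔ ∀ p : ℕ, m.factorization p % 4 ≤ 1) := by
    intro k m hm h
    have hm0 : m ≠ 0 := by rintro rfl; simp at hm
    have hn : 0 < 2 ^ k * m := by positivity
    have hcop : Nat.Coprime (2 ^ k) m := Nat.Coprime.pow_left k (Nat.coprime_two_left.mpr hm)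
    have h1 := (a_eq (2 ^ k * m) hn).mp h
    rw [S_mul hcop, F_mul hcop] at h1
    obtain ⟨h2, h3⟩ := two_part k
    have h4 : (S (2 ^ k)) % 2 = 1 := by
      have : (S (2 ^ k) : ℤ) % 2 = 1 := by rw [h2, pow_succ]; omega
      omega
    have h5 : (F (2 ^ k)) % 2 = 1 := by
      have : (F (2 ^ k) : ℤ) % 2 = 1 := by
        rw [h3, pow_succ, ← mul_assoc]
        generalize (k : ℤ) * 2 ^ k = t
        omega
      omega
    have h6 : (S (2 ^ k) * S m + F (2 ^ k) * F m) % 2 = 0 := by
      have : ((S (2 ^ k) * S m + F (2 ^ k) * F m : ℕ) : ℤ) % 2 = 0 := by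
        push_cast
        push_cast at h1
        rw [← h1, mul_assoc, mul_assoc]
        exact Int.mul_emod_right 2 _
      omega
    rw [Nat.add_mod, Nat.mul_mod, h4, Nat.mul_mod (F (2 ^ k)), h5] at h6
    obtain ⟨p1, p2⟩ := par m hm0 hm
    rw [← p1, ← p2]
    omega
  refine ⟨first, fun k m hm hs => ⟨fun h => ?_, ?_⟩⟩
  · have hm0 : m ≠ 0 := by rintro rfl; simp at hm
    have h1 := (first k m hm h).mpr fun p => by
      have := hs.natFactorization_le_one p
      omega
    by_contra hne
    have hp := Nat.minFac_prime hne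
    have h2 := hs.natFactorization_le_one m.minFac
    have h3 : 0 < m.factorization m.minFac := hp.factorization_pos_of_dvd hm0 (Nat.minFac_dvd m)
    have := h1 m.minFac
    omega
  · rintro rfl
    rw [mul_one]
    have hn : 0 < 2 ^ k := by positivity
    have hc : (2 ^ k).primeFactors.card ≤ 2 := by
      rcases Nat.eq_zero_or_pos k with hk | hk
      · subst hk; simp
      · rw [Nat.primeFactors_pow _ hk.ne', Nat.prime_two.primeFactors]; simp
    exact (Pool.Agent.Results.MP_846857_nt.TwoPrimes.result (2 ^ k) hn hc).mpr ⟨k, rfl⟩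

end Pool.Agent.Results.MP_846857_nt.Parity
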