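import Mathlib

/-!
# `a(n) = σ(n)` only at the powers of two: the integers with at most two prime divisors
-/

namespace Pool.Agent.Results.MP_846857_nt.TwoPrimes

open Finset ArithmeticFunction

/-- `a(n) = n τ(n) - ∑ d τ(d)`, the sum over the divisors `d < n` of `n`. -/
def a (n : ℕ) : ℤ :=
  (n : ℤ) * (n.divisors.card : ℤ) - ∑ d ∈ n.properDivisors, (d : ℤ) * (d.divisors.card : ℤ)

/-- `∑ d τ(d)` over all divisors -/
def F (n : ℕ) : ℕ := ∑ d ∈ n.divisors, d * d.divisors.card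

/-- sum of divisors -/
def S (n : ℕ) : ℕ := ∑ d ∈ n.divisors, d

lemma F_mul {m n : ℕ} (h : m.Coprime n) : F (m * n) = F m * F n := by
  have hm : IsMultiplicative ((pmul (ArithmeticFunction.id) (sigma 0)) * (zeta : ArithmeticFunction ℕ)) :=
    (isMultiplicative_id.pmul isMultiplicative_sigma).mul isMultiplicative_zeta
  have he : ∀ k : ℕ, ((pmul (ArithmeticFunction.id) (sigma 0)) * (zeta : ArithmeticFunction ℕ)) k = F k := by
    intro k
    rw [mul_zeta_apply]
    unfold F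
    apply Finset.sum_congr rfl
    intro d _
    simp [sigma_zero_apply]
  rw [← he, ← he, ← he]
  exact hm.map_mul_of_coprime h

lemma S_mul {m n : ℕ} (h : m.Coprime n) : S (m * n) = S m * S n := Nat.Coprime.sum_divisors_mul h

lemma S_pow_succ {p : ℕ} (hp : p.Prime) (k : ℕ) : S (p ^ (k + 1)) = S (p ^ k) + p ^ (k + 1) := by
  unfold S
  rw [Nat.sum_divisors_prime_pow hp, Nat.sum_divisors_prime_pow hp, Finset.sum_range_succ]

lemma F_pow_succ {p : ℕ} (hp : p.Prime) (k : ℕ) :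
    F (p ^ (k + 1)) = F (p ^ k) + (k + 2) * p ^ (k + 1) := by
  unfold F
  rw [Nat.sum_divisors_prime_pow hp, Nat.sum_divisors_prime_pow hp, Finset.sum_range_succ]
  congr 1
  rw [Nat.divisors_prime_pow hp, Finset.card_map, Finset.card_range]
  ring

lemma S_one : S 1 = 1 := by simp [S]
lemma F_one : F 1 = 1 := by simp [F]

lemma S_geom {p : ℕ} (hp : p.Prime) (k : ℕ) :
    ((p : ℤ) - 1) * S (p ^ k) = (p : ℤ) ^ (k + 1) - 1 := by
  induction k with
  | zero => simp [S_one]
  | succ k ih => rw [S_pow_succ hp]; push_cast; rw [mul_add, ih]; ring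

lemma F_geom {p : ℕ} (hp : p.Prime) (k : ℕ) :
    ((p : ℤ) - 1) * F (p ^ k) = (k + 1) * (p : ℤ) ^ (k + 1) - S (p ^ k) := by
  induction k with
  | zero => simp [S_one, F_one]
  | succ k ih =>
    rw [F_pow_succ hp, S_pow_succ hp]; push_cast; rw [mul_add, ih]; ring

lemma card_pow {p : ℕ} (hp : p.Prime) (k : ℕ) : (p ^ k).divisors.card = k + 1 := by
  rw [Nat.divisors_prime_pow hp, Finset.card_map, Finset.card_range]

lemma a_eq (n : ℕ) (hn : 0 < n) :
    a n = ∑ d ∈ n.divisors, (d : ℤ) ↔ 2 * (n : ℤ) * n.divisors.card = S n + F n := by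
  unfold a S F
  have h : ∑ d ∈ n.divisors, (d : ℤ) * (d.divisors.card : ℤ) =
      ∑ d ∈ n.properDivisors, (d : ℤ) * (d.divisors.card : ℤ) + (n : ℤ) * n.divisors.card := by
    rw [← Nat.cons_self_properDivisors hn.ne', Finset.sum_cons,
      Nat.cons_self_properDivisors hn.ne']
    ring
  push_cast
  rw [h]
  constructor
  · intro h1; linarith
  · intro h1; linarith

lemma F_pos {n : ℕ} (hn : 0 < n) : 0 < F n := by
  unfold F
  apply Finset.sum_pos
  · intro d hd
    have h1 : 0 < d := Nat.pos_of_mem_divisors hd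
    have h2 : 0 < d.divisors.card := Finset.card_pos.mpr ⟨1, Nat.one_mem_divisors.mpr h1.ne'⟩
    positivity
  · exact ⟨1, Nat.one_mem_divisors.mpr hn.ne'⟩

lemma two_part (k : ℕ) : (S (2 ^ k) : ℤ) = 2 ^ (k + 1) - 1 ∧ (F (2 ^ k) : ℤ) = k * 2 ^ (k + 1) + 1 := by
  have h1 := S_geom Nat.prime_two k
  have h2 := F_geom Nat.prime_two k
  push_cast at h1 h2
  constructor
  · linarith
  · linarith

/-- no solution `2^k q^j` -/
lemma caseA (k j q : ℕ) (hq : q.Prime) (hq2 : q ≠ 2)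
    (h : 2 * ((2 ^ k * q ^ (j + 1) : ℕ) : ℤ) * (2 ^ k * q ^ (j + 1)).divisors.card =
      S (2 ^ k * q ^ (j + 1)) + F (2 ^ k * q ^ (j + 1))) : False := by
  have hcop : Nat.Coprime (2 ^ k) (q ^ (j + 1)) :=
    Nat.Coprime.pow _ _ ((Nat.coprime_primes Nat.prime_two hq).mpr (Ne.symm hq2))
  rw [S_mul hcop, F_mul hcop, hcop.card_divisors_mul, card_pow Nat.prime_two, card_pow hq] at h
  obtain ⟨h1, h2⟩ := two_part k
  push_cast at h
  rw [h1, h2, S_pow_succ hq, F_pow_succ hq] at h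
  have h3 := F_geom hq j
  have hF : (0 : ℤ) < F (q ^ j) := by exact_mod_cast F_pos (pow_pos hq.pos j)
  push_cast at h
  have key : (F (q ^ j) : ℤ) * (2 ^ (k + 1) * ((q : ℤ) - 1 - k)) = F (q ^ j) * q := by
    have e1 : (2 : ℤ) ^ (k + 1) = 2 ^ k * 2 := pow_succ _ _
    rw [e1] at h ⊢
    linear_combination h + (2 ^ k * 2 - 1) * h3
  have key2 := mul_left_cancel₀ hF.ne' key
  have hodd : Odd (q : ℤ) := by exact_mod_cast hq.odd_of_ne_two hq2
  have heven : Even (q : ℤ) := by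
    rw [← key2]
    exact ⟨2 ^ k * ((q : ℤ) - 1 - k), by rw [pow_succ]; ring⟩
  exact (Int.not_even_iff_odd.mpr hodd) heven

lemma S_ge (p k : ℕ) (hp : p.Prime) : (p : ℤ) ^ k ≤ S (p ^ k) := by
  cases k with
  | zero => simp [S_one]
  | succ k => rw [S_pow_succ hp]; push_cast; linarith [Int.natCast_nonneg (S (p ^ k))]

/-- no odd solution with two prime divisors -/
lemma caseB (a b p q : ℕ) (hp : p.Prime) (hq : q.Prime) (hp3 : 3 ≤ p) (hq5 : 5 ≤ q) (hpq : p ≠ q)
    (ha : 1 ≤ a) (hb : 1 ≤ b)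
    (h : 2 * ((p ^ a * q ^ b : ℕ) : ℤ) * (p ^ a * q ^ b).divisors.card =
      S (p ^ a * q ^ b) + F (p ^ a * q ^ b)) : False := by
  have hcop : Nat.Coprime (p ^ a) (q ^ b) :=
    Nat.Coprime.pow _ _ ((Nat.coprime_primes hp hq).mpr hpq)
  rw [S_mul hcop, F_mul hcop, hcop.card_divisors_mul, card_pow hp, card_pow hq] at h
  have s1 := S_geom hp a
  have f1 := F_geom hp a
  have g1 := S_ge p a hp
  have s2 := S_geom hq b
  have f2 := F_geom hq b
  have g2 := S_ge q b hq
  have hp3' : (3 : ℤ) ≤ p := by exact_mod_cast hp3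
  have hq5' : (5 : ℤ) ≤ q := by exact_mod_cast hq5
  have ha' : (1 : ℤ) ≤ a := by exact_mod_cast ha
  have hb' : (1 : ℤ) ≤ b := by exact_mod_cast hb
  have hP : (0 : ℤ) < (p : ℤ) ^ a := by positivity
  have hQ : (0 : ℤ) < (q : ℤ) ^ b := by positivity
  rw [pow_succ] at s1 f1 s2 f2
  push_cast at h
  generalize hPd : (p : ℤ) ^ a = P at *
  generalize hQd : (q : ℤ) ^ b = Q at *
  generalize (S (p ^ a) : ℤ) = S1 at *
  generalize (F (p ^ a) : ℤ) = F1 at *
  generalize (S (q ^ b) : ℤ) = S2 at *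
  generalize (F (q ^ b) : ℤ) = F2 at *
  generalize (p : ℤ) = x at *
  generalize (q : ℤ) = y at *
  generalize (a : ℤ) = u at *
  generalize (b : ℤ) = v at *
  have t1 : 2 * S1 ≤ 3 * P := by
    by_contra hc
    have h5 : (x - 1) * (3 * P) < (x - 1) * (2 * S1) := mul_lt_mul_of_pos_left (by linarith) (by linarith)
    nlinarith [mul_nonneg hP.le (by linarith : 0 ≤ x - 3)]
  have t2 : 4 * S2 ≤ 5 * Q := by
    by_contra hc
    have h5 : (y - 1) * (5 * Q) < (y - 1) * (4 * S2) := mul_lt_mul_of_pos_left (by linarith) (by linarith)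
    nlinarith [mul_nonneg hQ.le (by linarith : 0 ≤ y - 5)]
  have t3 : 2 * F1 ≤ (3 * u + 2) * P := by
    by_contra hc
    have h5 : (x - 1) * ((3 * u + 2) * P) < (x - 1) * (2 * F1) :=
      mul_lt_mul_of_pos_left (by linarith) (by linarith)
    nlinarith [mul_nonneg (mul_nonneg hP.le (by linarith : 0 ≤ u)) (by linarith : 0 ≤ x - 3)]
  have t4 : 4 * F2 ≤ (5 * v + 4) * Q := by
    by_contra hc
    have h5 : (y - 1) * ((5 * v + 4) * Q) < (y - 1) * (4 * F2) :=
      mul_lt_mul_of_pos_left (by linarith) (by linarith)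
    nlinarith [mul_nonneg (mul_nonneg hQ.le (by linarith : 0 ≤ v)) (by linarith : 0 ≤ y - 5)]
  have hS1 : 0 ≤ S1 := by linarith
  have hS2 : 0 ≤ S2 := by linarith
  have m1 : (2 * S1) * (4 * S2) ≤ (3 * P) * (5 * Q) :=
    mul_le_mul t1 t2 (by linarith) (by linarith)
  have hF2 : 0 ≤ F2 := by
    by_contra hc
    have h6 : (y - 1) * F2 < 0 := mul_neg_of_pos_of_neg (by linarith) (by linarith)
    have h7 : S2 * (y - 1) ≤ Q * y := by linarith
    have h8 : 0 ≤ v * (Q * y) := by positivity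
    nlinarith [mul_nonneg hS2 (by linarith : 0 ≤ y - 5)]
  have m2 : (2 * F1) * (4 * F2) ≤ ((3 * u + 2) * P) * ((5 * v + 4) * Q) :=
    mul_le_mul t3 t4 (by linarith) (by positivity)
  have hPQ : 0 < P * Q := mul_pos hP hQ
  have hfin : 0 < u * v + 4 * u + 6 * v - 7 := by nlinarith
  have := mul_pos hPQ hfin
  nlinarith

theorem main (n : ℕ) (hn : 0 < n) (hc : n.primeFactors.card ≤ 2)
    (h : 2 * (n : ℤ) * n.divisors.card = S n + F n) : ∃ k, n = 2 ^ k := by
  obtain ⟨k, m, hm, rfl⟩ := Nat.exists_eq_two_pow_mul_odd hn.ne'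
  rcases eq_or_ne m 1 with rfl | hm1
  · exact ⟨k, by simp⟩
  exfalso
  have hm0 : m ≠ 0 := by rintro rfl; simp at hm
  have hqp := Nat.minFac_prime hm1
  obtain ⟨q, hq⟩ : ∃ q, q = m.minFac := ⟨_, rfl⟩
  rw [← hq] at hqp
  have hqm : q ∣ m := hq ▸ Nat.minFac_dvd m
  have hq2 : q ≠ 2 := by
    rintro rfl
    exact (Nat.not_even_iff_odd.mpr hm) (even_iff_two_dvd.mpr hqm)
  obtain ⟨j, m', hqm', hmm⟩ := Nat.exists_eq_pow_mul_and_not_dvd hm0 q hqp.ne_one
  have hj : j ≠ 0 := by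
    rintro rfl
    rw [pow_zero, one_mul] at hmm
    exact hqm' (hmm ▸ hqm)
  obtain ⟨j', rfl⟩ : ∃ j', j = j' + 1 := ⟨j - 1, by omega⟩
  rcases eq_or_ne m' 1 with hm'1 | hm'1
  · rw [hm'1, mul_one] at hmm
    rw [hmm] at h
    exact caseA k j' q hqp hq2 h
  · have hpp := Nat.minFac_prime hm'1
    obtain ⟨p, hp⟩ : ∃ p, p = m'.minFac := ⟨_, rfl⟩
    rw [← hp] at hpp
    have hpm' : p ∣ m' := hp ▸ Nat.minFac_dvd m'
    have hm'0 : m' ≠ 0 := by rintro rfl; exact hm0 (by rw [hmm, mul_zero])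
    have hpm : p ∣ m := hmm ▸ hpm'.mul_left _
    have hp2 : p ≠ 2 := by
      rintro rfl
      exact (Nat.not_even_iff_odd.mpr hm) (even_iff_two_dvd.mpr hpm)
    have hpq : p ≠ q := by
      rintro rfl
      exact hqm' hpm'
    have three : ∀ r : ℕ, r.Prime → r ∣ 2 ^ k * m → r ≠ p → r ≠ q → False := by
      intro r hr hrd hrp hrq
      have hsub : ({r, p, q} : Finset ℕ) ⊆ (2 ^ k * m).primeFactors := by
        intro t ht
        simp only [Finset.mem_insert, Finset.mem_singleton] at ht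
        rw [Nat.mem_primeFactors]
        rcases ht with rfl | rfl | rfl
        · exact ⟨hr, hrd, hn.ne'⟩
        · exact ⟨hpp, hpm.mul_left _, hn.ne'⟩
        · exact ⟨hqp, hqm.mul_left _, hn.ne'⟩
      have h3 : ({r, p, q} : Finset ℕ).card = 3 := by
        rw [Finset.card_insert_of_notMem, Finset.card_insert_of_notMem, Finset.card_singleton]
        · simpa using hpq
        · simp [hrp, hrq]
      have := Finset.card_le_card hsub
      omega
    have hk : k = 0 := by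
      by_contra hk
      exact three 2 Nat.prime_two ((dvd_pow_self 2 hk).mul_right _) (Ne.symm hp2) (Ne.symm hq2)
    subst hk
    obtain ⟨b, m2, hpm2, hmm2⟩ := Nat.exists_eq_pow_mul_and_not_dvd hm'0 p hpp.ne_one
    have hb : b ≠ 0 := by
      rintro rfl
      rw [pow_zero, one_mul] at hmm2
      exact hpm2 (hmm2 ▸ hpm')
    rcases eq_or_ne m2 1 with hm21 | hm21
    · rw [hm21, mul_one] at hmm2
      rw [hmm, hmm2, pow_zero, one_mul] at h
      have hq3 : 3 ≤ q := by have := hqp.two_le; omega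
      have hp3 : 3 ≤ p := by have := hpp.two_le; omega
      have hqo := hqp.odd_of_ne_two hq2
      have hpo := hpp.odd_of_ne_two hp2
      rcases Nat.lt_or_gt_of_ne hpq with hlt | hlt
      · have hq5 : 5 ≤ q := by
          obtain ⟨u, hu⟩ := hqo
          obtain ⟨v, hv⟩ := hpo
          omega
        rw [mul_comm (q ^ (j' + 1))] at h
        exact caseB b (j' + 1) p q hpp hqp hp3 hq5 hpq (by omega) (by omega) h
      · have hp5 : 5 ≤ p := by
          obtain ⟨u, hu⟩ := hqo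
          obtain ⟨v, hv⟩ := hpo
          omega
        exact caseB (j' + 1) b q p hqp hpp hq3 hp5 (Ne.symm hpq) (by omega) (by omega) h
    · have hr := Nat.minFac_prime hm21
      have hrd : m2.minFac ∣ m2 := Nat.minFac_dvd m2
      have hrm' : m2.minFac ∣ m' := by rw [hmm2]; exact hrd.mul_left _
      refine three m2.minFac hr ?_ ?_ ?_
      · rw [hmm]; exact (hrm'.mul_left _).mul_left _
      · intro he; exact hpm2 (he ▸ hrd)
      · intro he; exact hqm' (he ▸ hrm')

/-- Q1 for all `n` with at most two distinct prime divisors. -/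
theorem result (n : ℕ) (hn : 0 < n) (hc : n.primeFactors.card ≤ 2) :
    a n = ∑ d ∈ n.divisors, (d : ℤ) ↔ ∃ k : ℕ, n = 2 ^ k := by
  rw [a_eq n hn]
  constructor
  · exact main n hn hc
  · rintro ⟨k, rfl⟩
    obtain ⟨h1, h2⟩ := two_part k
    rw [h1, h2, card_pow Nat.prime_two]
    push_cast
    rw [pow_succ]
    ring

end Pool.Agent.Results.MP_846857_nt.TwoPrimes
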